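import Pool.Agent.H28.MZ.Defs

/-!
# Dilations `1 < r < 11/5`: definitions (MP_9f0eeb_nt)
-/

set_option autoImplicit false

open Complex MeasureTheory Set

namespace Pool.Agent.H74.DT

open Pool.Agent.H23.GLH (PrimChar)
open Pool.Agent.H28.MZ

/-- a smooth cutoff: `1` on `(-∞, 1 - δ]`, `0` on `[1, ∞)`, with rapidly decreasing Laplace
transforms -/
structure Cut (δ : ℝ) (φ : ℝ → ℝ) : Prop where
  mem : ∀ x, 0 ≤ φ x ∧ φ x ≤ 1
  one : ∀ x, x ≤ 1 - δ → φ x = 1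
  zero : ∀ x, 1 ≤ x → φ x = 0
  cont : Continuous φ
  lap : ∀ N : ℕ, ∃ C : ℝ, 0 < C ∧ ∀ c : ℝ, 1 ≤ c → ∃ g : ℝ → ℂ, Continuous g ∧
    (∀ v, ‖g v‖ ≤ C * Real.exp (2 * c) * (1 + |v|) ^ (-(N : ℝ))) ∧
    ∀ x : ℝ, 0 ≤ x → (φ x : ℂ) = ∫ v, g v * cexp (-((c + v * I) * x))

open scoped Classical in
/-- the coefficients `φ(log n / (θ L)) n^{μ/L}`, on the integers prime to `q` -/
noncomputable def cs (φ : ℝ → ℝ) (q : ℕ) (θ μ L : ℝ) (n : ℕ) : ℝ :=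
  if n = 0 ∨ ¬ Nat.Coprime n q then 0 else
    φ (Real.log n / (θ * L)) * Real.exp (μ * Real.log n / L)

/-- the coefficients `μ(n) φ(log n / (θ L)) n^{μ/L}`, on the integers prime to `q` -/
noncomputable def cm (φ : ℝ → ℝ) (q : ℕ) (θ μ L : ℝ) (n : ℕ) : ℝ :=
  (ArithmeticFunction.moebius n : ℝ) * cs φ q θ μ L n

/-- the data: two characters, the dilation, the small parameter and the cutoff -/
structure Dat where
  χ : PrimChar
  ψ : PrimChar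
  r : ℝ
  δ : ℝ
  φ : ℝ → ℝ

/-- the conditions on the data -/
structure Dat.Ok (D : Dat) : Prop where
  r1 : 1 < D.r
  r2 : D.r < 11 / 5
  δ0 : 0 < D.δ
  δ1 : D.δ ≤ 1 / 100
  δ2 : D.δ ≤ (D.r - 1) / 100
  δ3 : D.δ ≤ (11 / 5 - D.r) / 100
  cut : Cut D.δ D.φ

/-- the point `1/2 + x/log T + i t` -/
noncomputable def pt (T x t : ℝ) : ℂ := ((1 / 2 + x / Real.log T : ℝ) : ℂ) + t * I

namespace Dat

variable (D : Dat)

/-- `d/2`, where `d = r - 1` is the degree of the quotient -/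
noncomputable def y : ℝ := (D.r - 1) / 2

/-- the first `L`-function -/
noncomputable def F₁ (s : ℂ) : ℂ := D.χ.L s

/-- the second `L`-function, with the dilation and the shift -/
noncomputable def F₂ (τ : ℝ) (s : ℂ) : ℂ := D.ψ.L (wl D.r τ s)

/-- the long mollifier of `F₁`, of length `T^(1/2-δ)` -/
noncomputable def A (T : ℝ) (s : ℂ) : ℂ :=
  Bf D.χ (cm D.φ D.χ.q (1 / 2 - D.δ) 0 (Real.log T)) ⌊T ^ (1 / 2 - D.δ)⌋₊ s

/-- the mollifier of `F₁` of length `T^(1/5-δ)` -/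
noncomputable def A₅ (T : ℝ) (s : ℂ) : ℂ :=
  Bf D.χ (cm D.φ D.χ.q (1 / 5 - D.δ) 0 (Real.log T)) ⌊T ^ (1 / 5 - D.δ)⌋₊ s

/-- the approximation of `F₁` of length `T^(1/R)` -/
noncomputable def B₁ (R T : ℝ) (s : ℂ) : ℂ :=
  Bf D.χ (cs D.φ D.χ.q (1 / R) 0 (Real.log T)) ⌊T ^ (1 / R)⌋₊ s

/-- the mollifier of `F₂` of length `T^(1/R)` -/
noncomputable def B₂ (R T τ : ℝ) (s : ℂ) : ℂ :=
  Bf D.ψ (cm D.φ D.ψ.q (1 / R) 0 (Real.log T)) ⌊T ^ (1 / R)⌋₊ (wl D.r τ s)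

/-- the approximation of `F₂` of length `T^(1/5-δ)` -/
noncomputable def Q (T τ : ℝ) (s : ℂ) : ℂ :=
  Bf D.ψ (cs D.φ D.ψ.q (1 / 5 - D.δ) 0 (Real.log T)) ⌊T ^ (1 / 5 - D.δ)⌋₊ (wl D.r τ s)

/-- the primes of the test polynomial -/
noncomputable def Pm (T : ℝ) : Finset ℕ :=
  (Finset.Ioc ⌊T ^ ((D.y - D.δ) / D.r)⌋₊ ⌊T ^ (D.y / D.r)⌋₊).filter Nat.Prime

/-- the test polynomial -/
noncomputable def S (T τ : ℝ) (s : ℂ) : ℂ :=
  ∑ p ∈ D.Pm T, (starRingEnd ℂ) (co D.ψ p) * (p : ℂ) ^ (wl D.r τ s - 1)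

/-- the main term -/
noncomputable def c₀ (T : ℝ) : ℝ := ∑ p ∈ D.Pm T, ‖co D.ψ p‖ ^ 2 / p

/-! ### The functions on the line `Re s = 1/2 + x/log T`; `l = 2` on the right, `l = 0` on the left -/

/-- `F₁ A - 1` -/
noncomputable def ν (T x t : ℝ) : ℂ := D.F₁ (pt T x t) * D.A T (pt T x t) - 1

/-- `F₂ B₂` -/
noncomputable def V (l R T τ x t : ℝ) : ℂ :=
  D.F₂ τ (pt T x t) * D.B₂ R T τ (pt T (x + l * R) t)

/-- `Q B₂` -/
noncomputable def P (l R T τ x t : ℝ) : ℂ :=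
  D.Q T τ (pt T x t) * D.B₂ R T τ (pt T (x + l * R) t)

/-- `B₁ A` -/
noncomputable def U (l R T x t : ℝ) : ℂ := D.B₁ R T (pt T (x + l * R) t) * D.A T (pt T x t)

/-- `B₁ A₅` -/
noncomputable def U₅ (l R T x t : ℝ) : ℂ := D.B₁ R T (pt T (x + l * R) t) * D.A₅ T (pt T x t)

/-- the approximation of `F₂/F₁` times the normalizer and the test polynomial, right line -/
noncomputable def HR (R T τ t : ℝ) : ℂ :=
  (D.V 2 R T τ R t * D.U 2 R T R t - D.P 2 R T τ R t * D.U₅ 2 R T R t * D.ν T R t) *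
    D.S T τ (pt T R t)

open ComplexConjugate in
/-- the same on the left line, without the factor of the functional equation -/
noncomputable def HL (R T τ t : ℝ) : ℂ :=
  (conj (D.F₂ τ (pt T R t)) * D.B₂ R T τ (pt T R t) *
      (D.B₁ R T (pt T R t) * conj (D.A T (pt T R t))) -
    conj (D.Q T τ (pt T R t)) * D.B₂ R T τ (pt T R t) *
      (D.B₁ R T (pt T R t) * conj (D.A₅ T (pt T R t))) * conj (D.ν T R t)) *
    D.S T τ (pt T (-R) t)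

end Dat

end Pool.Agent.H74.DT
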