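import Pool.Agent.H74.DT.Defs

/-!
# Dilations `1 < r < 11/5`: exact targets (interfaces, boxes, assembly), MP_9f0eeb_nt
-/

set_option autoImplicit false

open Complex MeasureTheory Set

namespace Pool.Agent.H74.DT

open Pool.Agent.H23.GLH (PrimChar)
open Pool.Agent.H28.MZ

/-- an inverse factor of the functional equation -/
def FE (π : PrimChar) (y : ℂ → ℂ) : Prop :=
  ∀ s : ℂ, 0 < s.im → DifferentiableAt ℂ y s ∧ y s ≠ 0 ∧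
    π.L s * y s = (starRingEnd ℂ) (π.L (1 - (starRingEnd ℂ) s))

namespace Dat

variable (D : Dat)

/-- the range of the shift -/
noncomputable def cτ : ℝ := min (1 / 4) ((D.r ^ 2 - D.r) / 4)

/-- the quotient of the two factors on the left line -/
noncomputable def X (y₁ y₂ : ℂ → ℂ) (R T τ t : ℝ) : ℂ :=
  y₁ (pt T (-R) t) / y₂ (wl D.r τ (pt T (-R) t))

/-- the exact function on the right line -/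
noncomputable def HRe (R T τ t : ℝ) : ℂ :=
  D.V 2 R T τ R t * D.U 2 R T R t / (1 + D.ν T R t) * D.S T τ (pt T R t)

open ComplexConjugate in
/-- the exact function on the left line, without the factor of the functional equation -/
noncomputable def HLe (R T τ t : ℝ) : ℂ :=
  conj (D.F₂ τ (pt T R t)) * D.B₂ R T τ (pt T R t) *
      (D.B₁ R T (pt T R t) * conj (D.A T (pt T R t))) / (1 + conj (D.ν T R t)) *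
    D.S T τ (pt T (-R) t)

/-- the error function on the line `x = R`, without the factor `S` -/
noncomputable def GE (l R T τ t : ℝ) : ℝ :=
  4 * Real.exp (R / 10) * ‖(D.U l R T R t - D.U₅ l R T R t) * D.ν T R t‖ +
    4 * Real.exp (R / 10) * ‖D.U₅ l R T R t‖ * ‖D.ν T R t‖ ^ 2 +
    ‖(D.V l R T τ R t - D.P l R T τ R t) * D.U₅ l R T R t * D.ν T R t‖

end Dat

/-- a good height -/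
structure Good (D : Dat) (R T τ c₁ t₀ : ℝ) : Prop where
  zer : ∀ ρ : ℂ, 0 < ρ.re → ρ.re < 1 → |ρ.im - t₀| ≤ 2 * R ^ 3 / Real.log T →
    analyticOrderAt D.F₁ ρ ≤ analyticOrderAt (D.F₂ τ) ρ
  nu : ∀ t : ℝ, |t - t₀| ≤ 2 * R ^ 3 / Real.log T → ‖D.ν T R t‖ ≤ 1 / 2
  pd : ∀ l t : ℝ, l = 0 ∨ l = 2 → |t - t₀| ≤ 2 * R ^ 3 / Real.log T →
    ‖D.P l R T τ R t‖ ≤ Real.exp (R / 10) ∧ ‖D.V l R T τ R t - D.P l R T τ R t‖ ≤ Real.exp (R / 10)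
  cr : ∀ x t : ℝ, -R - 2 ≤ x → x ≤ 3 * R + 2 → |t - t₀| ≤ 2 * R ^ 3 / Real.log T →
    ‖D.F₁ (pt T x t) * D.A T (pt T x t)‖ ≤ Real.exp (c₁ * R) ∧
    ‖D.F₂ τ (pt T x t) * D.B₂ R T τ (pt T (x + 2 * R) t)‖ ≤ Real.exp (c₁ * R) ∧
    ‖D.B₁ R T (pt T (x + 2 * R) t) * D.A T (pt T x t)‖ ≤ Real.exp (c₁ * R) ∧
    ‖D.S T τ (pt T x t)‖ ≤ Real.exp (c₁ * R)

/-! ### Interfaces: moments (section 1) -/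

/-- (N1) -/
def T_N1 : Prop :=
  ∀ D : Dat, D.Ok → ∃ C R₀ : ℝ, 0 < C ∧ ∀ R : ℝ, R₀ ≤ R → ∃ T₀ : ℝ, ∀ T : ℝ, T₀ ≤ T → ∀ x : ℝ,
    R - 1 ≤ x → x ≤ R + 1 →
    ∫ t in (T / 2)..(3 * T), ‖D.ν T x t‖ ^ 2 ≤ T * (R ^ C * Real.exp (-(1 - 4 * D.δ) * R))

/-- (N2) -/
def T_N2 : Prop :=
  ∀ D : Dat, D.Ok → ∃ C R₀ : ℝ, 0 < C ∧ ∀ R : ℝ, R₀ ≤ R → ∃ T₀ : ℝ, ∀ T : ℝ, T₀ ≤ T →
    ∀ τ l x : ℝ, |τ| ≤ D.cτ * T → l = 0 ∨ l = 2 → R - 1 ≤ x → x ≤ R + 1 →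
    ∫ t in (T / 2)..(3 * T), ‖D.V l R T τ x t - D.P l R T τ x t‖ ^ 2 ≤
      T * (R ^ C * Real.exp (-(2 * D.r * (1 / 5 - 3 * D.δ)) * R))

/-- (N3) -/
def T_N3 : Prop :=
  ∀ D : Dat, D.Ok → ∃ C R₀ : ℝ, 0 < C ∧ ∀ R : ℝ, R₀ ≤ R → ∃ T₀ : ℝ, ∀ T : ℝ, T₀ ≤ T →
    ∀ l x : ℝ, l = 0 ∨ l = 2 → R - 1 ≤ x → x ≤ R + 1 →
    ∫ t in (T / 2)..(3 * T), ‖D.U l R T x t - D.U₅ l R T x t‖ ^ 4 ≤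
      T * (R ^ C * Real.exp (-(4 * (1 / 5 - 3 * D.δ)) * R))

/-- (N4) -/
def T_N4 : Prop :=
  ∀ D : Dat, D.Ok → ∃ C R₀ : ℝ, 0 < C ∧ ∀ R : ℝ, R₀ ≤ R → ∃ T₀ : ℝ, ∀ T : ℝ, T₀ ≤ T →
    ∀ l x : ℝ, l = 0 ∨ l = 2 → R - 1 ≤ x → x ≤ R + 1 →
    ∫ t in (T / 2)..(3 * T), ‖D.U₅ l R T x t‖ ^ 10 ≤ T * R ^ C

/-- (N5) -/
def T_N5 : Prop :=
  ∀ D : Dat, D.Ok → ∃ C R₀ : ℝ, 0 < C ∧ ∀ R : ℝ, R₀ ≤ R → ∃ T₀ : ℝ, ∀ T : ℝ, T₀ ≤ T →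
    ∀ τ l x : ℝ, |τ| ≤ D.cτ * T → l = 0 ∨ l = 2 → R - 1 ≤ x → x ≤ R + 1 →
    ∫ t in (T / 2)..(3 * T), ‖D.P l R T τ x t‖ ^ 10 ≤ T * R ^ C

/-- (N6) -/
def T_N6 : Prop :=
  ∀ D : Dat, D.Ok → ∃ C R₀ : ℝ, 0 < C ∧ ∀ R : ℝ, R₀ ≤ R → ∃ T₀ : ℝ, ∀ T : ℝ, T₀ ≤ T →
    ∀ τ : ℝ, |τ| ≤ D.cτ * T →
    (∫ t in (T / 2)..(3 * T), ‖D.S T τ (pt T R t)‖ ^ 6) ≤ T * (C * Real.exp (D.y * R)) ^ 6 ∧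
    (∫ t in (T / 2)..(3 * T), ‖D.S T τ (pt T (-R) t)‖ ^ 6) ≤
      T * (C * Real.exp (-(D.y - D.δ) * R)) ^ 6

/-- (N7) -/
def T_N7 : Prop :=
  ∀ D : Dat, D.Ok → ∃ C R₀ : ℝ, 0 < C ∧ ∀ R : ℝ, R₀ ≤ R → ∃ T₀ : ℝ, ∀ T : ℝ, T₀ ≤ T →
    ∀ τ x : ℝ, |τ| ≤ D.cτ * T → x = -R - 4 ∨ x = 3 * R + 4 →
    (∫ t in (T / 2)..(3 * T), ‖D.F₁ (pt T x t) * D.A T (pt T x t)‖ ^ 2) ≤
        T * Real.exp (C * R) ∧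
    (∫ t in (T / 2)..(3 * T), ‖D.F₂ τ (pt T x t) * D.B₂ R T τ (pt T (x + 2 * R) t)‖ ^ 2) ≤
        T * Real.exp (C * R) ∧
    (∫ t in (T / 2)..(3 * T), ‖D.B₁ R T (pt T (x + 2 * R) t) * D.A T (pt T x t)‖ ^ 2) ≤
        T * Real.exp (C * R) ∧
    (∫ t in (T / 2)..(3 * T), ‖D.S T τ (pt T x t)‖ ^ 2) ≤ T * Real.exp (C * R)

/-! ### Interfaces: evaluation (section 3) -/

/-- (EVR) the right side. -/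
def T_EVR : Prop :=
  ∀ D : Dat, D.Ok → ∃ R₀ ε₁ : ℝ, 0 < ε₁ ∧ ∀ ε : ℝ, 0 < ε → ε ≤ ε₁ → ∃ c : ℝ, 0 < c ∧ ∀ R : ℝ,
    R₀ ≤ R → ∃ T₀ : ℝ, ∀ T : ℝ, T₀ ≤ T → ∀ τ u : ℝ, |τ| ≤ D.cτ * T → 6 * T / 5 ≤ u →
    u ≤ 9 * T / 5 →
    ‖Ga (T ^ (1 - ε)) (T / 4) u (fun t => D.HR R T τ t) - D.c₀ T‖ ≤ T ^ (-c)

/-- (EVL) the factors of the functional equation and the left side. -/
def T_EVL : Prop :=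
  ∀ D : Dat, D.Ok → ∃ y₁ y₂ : ℂ → ℂ, FE D.χ y₁ ∧ FE D.ψ y₂ ∧
    (∀ R : ℝ, 1 ≤ R → ∃ T₀ : ℝ, ∀ T : ℝ, T₀ ≤ T → ∀ τ t : ℝ, |τ| ≤ D.cτ * T → T / 2 ≤ t →
      t ≤ 3 * T → ‖D.X y₁ y₂ R T τ t‖ ≤ 2 * Real.exp ((D.r - 1) * R)) ∧
    ∃ R₀ ε₁ : ℝ, 0 < ε₁ ∧ ∀ ε : ℝ, 0 < ε → ε ≤ ε₁ → ∃ c : ℝ, 0 < c ∧ ∀ R : ℝ,
      R₀ ≤ R → ∃ T₀ : ℝ, ∀ T : ℝ, T₀ ≤ T → ∀ τ u : ℝ, |τ| ≤ D.cτ * T → 6 * T / 5 ≤ u →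
      u ≤ 9 * T / 5 →
      ‖Ga (T ^ (1 - ε)) (T / 4) u (fun t => D.X y₁ y₂ R T τ t * D.HL R T τ t)‖ ≤ T ^ (-c)

/-! ### Section 2: boxes -/

/-- (PT) a pointwise bound from two vertical lines. -/
def T_PT : Prop :=
  ∀ (h : ℂ → ℂ) (x₁ x₂ x Δ L t M : ℝ), 1 ≤ L → 1 ≤ Δ → x₁ + 1 ≤ x → x ≤ x₂ - 1 → x₂ - x₁ ≤ Δ →
    0 ≤ M → (∀ z : ℂ, 1 / 2 + x₁ / L ≤ z.re → z.re ≤ 1 / 2 + x₂ / L → t - 1 ≤ z.im →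
      z.im ≤ t + 1 → DifferentiableAt ℂ h z ∧ ‖h z‖ ≤ M) →
    ‖h ((1 / 2 + x / L : ℝ) + t * I)‖ ^ 2 ≤
      L * (∫ v in (t - 1)..(t + 1), ‖h ((1 / 2 + x₁ / L : ℝ) + v * I)‖ ^ 2 *
        Real.exp (-(L * (v - t) / Δ) ^ 2)) +
      L * (∫ v in (t - 1)..(t + 1), ‖h ((1 / 2 + x₂ / L : ℝ) + v * I)‖ ^ 2 *
        Real.exp (-(L * (v - t) / Δ) ^ 2)) + Δ * M ^ 2 * Real.exp (1 - (L / Δ) ^ 2)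

/-- (SU) the heights with a large value nearby. -/
def T_SU : Prop :=
  ∀ C Δ K : ℝ, 1 ≤ C → 1 ≤ Δ → 1 ≤ K → ∃ T₀ : ℝ, ∀ T : ℝ, T₀ ≤ T → ∀ (x₁ x₂ V : ℝ) (h : ℂ → ℂ),
    x₁ ≤ x₂ → x₂ - x₁ ≤ Δ → 1 / 2 ≤ V →
    (∀ z : ℂ, 1 / 2 + x₁ / Real.log T ≤ z.re → z.re ≤ 1 / 2 + x₂ / Real.log T → T / 2 ≤ z.im →
      z.im ≤ 3 * T → DifferentiableAt ℂ h z ∧ ‖h z‖ ≤ T ^ C) →
    ∃ E : Set ℝ, MeasurableSet E ∧ E ⊆ Icc T (2 * T) ∧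
      volume.real E ≤ 4 * (K + Δ) / V ^ 2 * ((∫ t in (T / 2)..(3 * T), ‖h (pt T x₁ t)‖ ^ 2) +
        ∫ t in (T / 2)..(3 * T), ‖h (pt T x₂ t)‖ ^ 2) ∧
      ∀ t₀ ∈ Icc T (2 * T), t₀ ∉ E → ∀ t x : ℝ, |t - t₀| ≤ K / Real.log T → x₁ + 1 ≤ x →
        x ≤ x₂ - 1 → ‖h (pt T x t)‖ ≤ V

/-- (HQ) a holomorphic quotient. -/
def T_HQ : Prop :=
  ∀ (F G : ℂ → ℂ) (Ω : Set ℂ), IsOpen Ω →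
    (∀ z ∈ Ω, AnalyticAt ℂ F z ∧ AnalyticAt ℂ G z ∧ analyticOrderAt G z ≠ ⊤ ∧
      analyticOrderAt G z ≤ analyticOrderAt F z) →
    ∃ g : ℂ → ℂ, ∀ z ∈ Ω, DifferentiableAt ℂ g z ∧ F z = g z * G z

/-- (AJ) the sub-mean value property over discs. -/
def T_AJ : Prop :=
  ∀ (f : ℂ → ℂ) (z : ℂ) (ρ : ℝ), 0 < ρ → (∀ w ∈ Metric.closedBall z ρ, AnalyticAt ℂ f w) →
    f z ≠ 0 → IntegrableOn (fun w => Real.log ‖f w‖) (Metric.closedBall z ρ) ∧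
      Real.pi * ρ ^ 2 * Real.log ‖f z‖ ≤ ∫ w in Metric.closedBall z ρ, Real.log ‖f w‖

/-- (LB) an upper bound for a quotient. -/
def T_LB : Prop :=
  ∀ (G a c : ℂ → ℂ) (z z' : ℂ) (ρ σ α β : ℝ), 0 < ρ → 0 ≤ α → 0 ≤ β → dist z z' + ρ ≤ σ →
    (∀ w ∈ Metric.closedBall z ρ, AnalyticAt ℂ G w ∧ G w * c w = a w ∧ ‖a w‖ ≤ Real.exp α) →
    (∀ w ∈ Metric.closedBall z' σ, AnalyticAt ℂ c w ∧ ‖c w‖ ≤ Real.exp β) →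
    1 / 2 ≤ ‖c z'‖ → ‖G z‖ ≤ Real.exp (α + (σ / ρ) ^ 2 * (β + Real.log 2))

/-- (BX) the box identity. -/
def T_BX : Prop :=
  ∀ (G : ℂ → ℂ) (R K M : ℝ), 0 < R → 0 < K → 0 ≤ M →
    (∀ z : ℂ, |z.re| ≤ R → |z.im| ≤ K → DifferentiableAt ℂ G z ∧ ‖G z‖ ≤ M) →
    ‖(∫ v in (-K)..K, G (R + v * I) * cexp (((R + v * I) / R) ^ 2)) -
        ∫ v in (-K)..K, G (-R + v * I) * cexp (((-R + v * I) / R) ^ 2)‖ ≤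
      4 * R * M * Real.exp (1 - (K / R) ^ 2)

/-- (KI) the integral of the kernel. -/
def T_KI : Prop :=
  ∀ R K : ℝ, 0 < R → 2 * R ≤ K →
    R ≤ ‖∫ v in (-K)..K, cexp (((R + v * I) / R) ^ 2)‖ ∧
    (∫ v in (-K)..K, ‖cexp (((R + v * I) / R) ^ 2)‖) ≤ 5 * R ∧
    (∫ v in (-K)..K, ‖cexp (((-R + v * I) / R) ^ 2)‖) ≤ 5 * R

/-- (GR) growth and holomorphy of all functions. -/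
def T_GR : Prop :=
  ∀ D : Dat, D.Ok → ∃ C : ℝ, 1 ≤ C ∧ ∀ R : ℝ, 1 ≤ R → ∃ T₀ : ℝ, ∀ T : ℝ, T₀ ≤ T → ∀ τ : ℝ,
    |τ| ≤ T / 4 → ∀ z : ℂ, 1 / 4 ≤ z.re → z.re ≤ 1 → T / 2 ≤ z.im → z.im ≤ 3 * T →
    (AnalyticAt ℂ D.F₁ z ∧ ‖D.F₁ z‖ ≤ T ^ C ∧ analyticOrderAt D.F₁ z ≠ ⊤) ∧
    (AnalyticAt ℂ (D.F₂ τ) z ∧ ‖D.F₂ τ z‖ ≤ T ^ C) ∧
    (AnalyticAt ℂ (D.A T) z ∧ ‖D.A T z‖ ≤ T ^ C) ∧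
    (AnalyticAt ℂ (D.A₅ T) z ∧ ‖D.A₅ T z‖ ≤ T ^ C) ∧
    (AnalyticAt ℂ (D.B₁ R T) z ∧ ‖D.B₁ R T z‖ ≤ T ^ C) ∧
    (AnalyticAt ℂ (D.B₂ R T τ) z ∧ ‖D.B₂ R T τ z‖ ≤ T ^ C) ∧
    (AnalyticAt ℂ (D.Q T τ) z ∧ ‖D.Q T τ z‖ ≤ T ^ C) ∧
    (AnalyticAt ℂ (D.S T τ) z ∧ ‖D.S T τ z‖ ≤ T ^ C)

/-- (GB) the two sides agree for good heights. -/
def T_GB : Prop :=
  ∀ (D : Dat) (c₁ : ℝ), D.Ok → 0 < c₁ → ∃ R₀ : ℝ, 1 ≤ R₀ ∧ ∀ R : ℝ, R₀ ≤ R → ∃ T₀ : ℝ,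
    ∀ T : ℝ, T₀ ≤ T → ∀ (τ t₀ : ℝ) (y₁ y₂ : ℂ → ℂ), |τ| ≤ T / 4 → T ≤ t₀ → t₀ ≤ 2 * T →
    FE D.χ y₁ → FE D.ψ y₂ → Good D R T τ c₁ t₀ →
    ‖(∫ v in (-R ^ 3)..(R ^ 3), D.HRe R T τ (t₀ + v / Real.log T) *
          cexp (((R + v * I) / R) ^ 2)) -
        ∫ v in (-R ^ 3)..(R ^ 3), D.X y₁ y₂ R T τ (t₀ + v / Real.log T) *
          D.HLe R T τ (t₀ + v / Real.log T) * cexp (((-R + v * I) / R) ^ 2)‖ ≤ Real.exp (-R)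

/-- the exponent of the measure of the bad heights -/
noncomputable def Dat.pe (D : Dat) : ℝ := min (1 - 4 * D.δ) ((2 * D.r + 1) / 5 - 14 * D.δ)

/-- (MB) the measure of the bad heights. -/
def T_MB : Prop :=
  ∀ D : Dat, D.Ok → ∃ C c₁ R₀ : ℝ, 0 < C ∧ 0 < c₁ ∧ ∀ R : ℝ, R₀ ≤ R → ∃ T₀ : ℝ, ∀ T : ℝ,
    T₀ ≤ T → ∀ (τ : ℝ) (Z : Finset ℂ), |τ| ≤ D.cτ * T →
    (∀ ρ : ℂ, 0 < ρ.re → ρ.re < 1 → T < ρ.im → ρ.im < 2 * T →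
      analyticOrderAt (D.F₂ τ) ρ < analyticOrderAt D.F₁ ρ → ρ ∈ Z) →
    ∃ E : Set ℝ, MeasurableSet E ∧ E ⊆ Icc T (2 * T) ∧
      volume.real E ≤ Z.card * (4 * R ^ 3 / Real.log T) + T * (R ^ C * Real.exp (-D.pe * R)) ∧
      ∀ t₀ ∈ Icc T (2 * T), t₀ ∉ E → Good D R T τ c₁ t₀

/-! ### Section 4: assembly -/

/-- (AG) the algebra of the approximation. -/
def T_AG : Prop :=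
  ∀ (V P U W ν : ℂ) (M : ℝ), ‖ν‖ ≤ 1 / 2 → ‖P‖ ≤ M → ‖V - P‖ ≤ M →
    ‖V * U / (1 + ν) - (V * U - P * W * ν)‖ ≤
      4 * M * ‖(U - W) * ν‖ + 4 * M * ‖W‖ * ‖ν‖ ^ 2 + ‖(V - P) * W * ν‖

/-- (PA) the pointwise errors. -/
def T_PA : Prop :=
  ∀ (D : Dat) (R T τ c₁ t₀ t : ℝ), Good D R T τ c₁ t₀ → |t - t₀| ≤ 2 * R ^ 3 / Real.log T →
    ‖D.HRe R T τ t - D.HR R T τ t‖ ≤ D.GE 2 R T τ t * ‖D.S T τ (pt T R t)‖ ∧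
    ‖D.HLe R T τ t - D.HL R T τ t‖ ≤ D.GE 0 R T τ t * ‖D.S T τ (pt T (-R) t)‖

/-- (HG) the good heights: Hoelder. -/
def T_HG : Prop :=
  ∀ (T M a₁ a₂ a₃ b s : ℝ) (Z Δ W ν S : ℝ → ℂ) (E : Set ℝ), 0 < T → 1 ≤ M → 0 ≤ a₁ → 0 ≤ a₂ →
    0 ≤ a₃ → 0 ≤ b → 0 ≤ s → ContinuousOn Z (Icc (T / 2) (3 * T)) →
    ContinuousOn Δ (Icc (T / 2) (3 * T)) → ContinuousOn W (Icc (T / 2) (3 * T)) →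
    ContinuousOn ν (Icc (T / 2) (3 * T)) → ContinuousOn S (Icc (T / 2) (3 * T)) →
    MeasurableSet E → E ⊆ Icc (T / 2) (3 * T) →
    (∫ t in (T / 2)..(3 * T), ‖ν t‖ ^ 2) ≤ T * a₁ ^ 2 →
    (∫ t in (T / 2)..(3 * T), ‖Z t‖ ^ 2) ≤ T * a₂ ^ 2 →
    (∫ t in (T / 2)..(3 * T), ‖Δ t‖ ^ 4) ≤ T * a₃ ^ 4 →
    (∫ t in (T / 2)..(3 * T), ‖W t‖ ^ 10) ≤ T * b ^ 10 →
    (∫ t in (T / 2)..(3 * T), ‖S t‖ ^ 6) ≤ T * s ^ 6 →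
    (∀ t ∈ E, ‖ν t‖ ≤ 1 / 2 ∧ ‖Z t‖ ≤ M) →
    ∫ t in E, (4 * M * ‖Δ t * ν t‖ + 4 * M * ‖W t‖ * ‖ν t‖ ^ 2 + ‖Z t * W t * ν t‖) * ‖S t‖ ≤
      100 * T * s * (M * a₃ * a₁ + M * b * a₁ ^ (22 / 15 : ℝ) +
        b * M ^ (4 / 15 : ℝ) * (a₂ * a₁) ^ (11 / 15 : ℝ))

/-- (HB) the bad heights: Hoelder. -/
def T_HB : Prop :=
  ∀ (T a₁ a₂ a₃ b s p : ℝ) (V P U W ν S : ℝ → ℂ) (E : Set ℝ), 0 < T → 0 ≤ a₁ → 0 ≤ a₂ →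
    0 ≤ a₃ → 0 ≤ b → 0 ≤ s → 0 ≤ p → ContinuousOn V (Icc (T / 2) (3 * T)) →
    ContinuousOn P (Icc (T / 2) (3 * T)) → ContinuousOn U (Icc (T / 2) (3 * T)) →
    ContinuousOn W (Icc (T / 2) (3 * T)) → ContinuousOn ν (Icc (T / 2) (3 * T)) →
    ContinuousOn S (Icc (T / 2) (3 * T)) → MeasurableSet E → E ⊆ Icc (T / 2) (3 * T) →
    volume.real E ≤ p * T →
    (∫ t in (T / 2)..(3 * T), ‖ν t‖ ^ 2) ≤ T * a₁ ^ 2 →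
    (∫ t in (T / 2)..(3 * T), ‖V t - P t‖ ^ 2) ≤ T * a₂ ^ 2 →
    (∫ t in (T / 2)..(3 * T), ‖U t - W t‖ ^ 4) ≤ T * a₃ ^ 4 →
    (∫ t in (T / 2)..(3 * T), ‖W t‖ ^ 10) ≤ T * b ^ 10 →
    (∫ t in (T / 2)..(3 * T), ‖P t‖ ^ 10) ≤ T * b ^ 10 →
    (∫ t in (T / 2)..(3 * T), ‖S t‖ ^ 6) ≤ T * s ^ 6 →
    ∫ t in E, ‖V t * U t - P t * W t * ν t‖ * ‖S t‖ ≤
      100 * T * s * (b ^ 2 * p ^ (19 / 30 : ℝ) + b * a₃ * p ^ (29 / 60 : ℝ) +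
        a₂ * b * p ^ (7 / 30 : ℝ) + a₂ * a₃ * p ^ (1 / 12 : ℝ) +
        b ^ 2 * a₁ * p ^ (2 / 15 : ℝ))

/-- the average over the heights -/
noncomputable def Av (ε T : ℝ) (f : ℝ → ℂ) : ℂ :=
  ((2 / T : ℝ) : ℂ) * ∫ u in (5 * T / 4)..(7 * T / 4), Ga (T ^ (1 - ε)) (T / 4) u f

/-- (AVA) trivial bound for the average. -/
def T_AVA : Prop :=
  ∀ (ε T : ℝ) (f : ℝ → ℂ), 1 ≤ T → ContinuousOn f (Icc T (2 * T)) →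
    ‖Av ε T f‖ ≤ 2 / T * ∫ t in T..(2 * T), ‖f t‖

/-- (AVB) the average of a local integral. -/
def T_AVB : Prop :=
  ∀ (ε T K L e : ℝ) (c : ℂ) (F k : ℝ → ℂ), 1 ≤ T → 0 < K → 0 < L → K / L ≤ T / 20 →
    ContinuousOn F (Icc (T / 2) (3 * T)) → Continuous k →
    (∀ u : ℝ, 6 * T / 5 ≤ u → u ≤ 9 * T / 5 → ‖Ga (T ^ (1 - ε)) (T / 4) u F - c‖ ≤ e) →
    ‖Av ε T (fun t₀ => ∫ v in (-K)..K, F (t₀ + v / L) * k v) - c * ∫ v in (-K)..K, k v‖ ≤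
      e * ∫ v in (-K)..K, ‖k v‖

/-- (SP) shifts of a set of heights. -/
def T_SP : Prop :=
  ∀ (T K L B : ℝ) (F k : ℝ → ℝ) (E : Set ℝ), 1 ≤ T → 0 < K → 0 < L → K / L ≤ T / 20 →
    ContinuousOn F (Icc (T / 2) (3 * T)) → Continuous k → (∀ t, 0 ≤ F t) → (∀ v, 0 ≤ k v) →
    MeasurableSet E → E ⊆ Icc T (2 * T) →
    (∀ v : ℝ, |v| ≤ K → ∫ t in (fun t => t - v / L) ⁻¹' E, F t ≤ B) →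
    ∫ t₀ in E, ∫ v in (-K)..K, F (t₀ + v / L) * k v ≤ B * ∫ v in (-K)..K, k v

/-- (CN) continuity of the functions of the height. -/
def T_CN : Prop :=
  ∀ (D : Dat) (y₁ y₂ : ℂ → ℂ), D.Ok → FE D.χ y₁ → FE D.ψ y₂ → ∀ R : ℝ, 1 ≤ R → ∃ T₀ : ℝ,
    ∀ T : ℝ, T₀ ≤ T → ∀ τ l : ℝ, |τ| ≤ T / 4 →
    ContinuousOn (fun t => D.ν T R t) (Ici (T / 4)) ∧
    ContinuousOn (fun t => D.V l R T τ R t) (Ici (T / 4)) ∧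
    ContinuousOn (fun t => D.P l R T τ R t) (Ici (T / 4)) ∧
    ContinuousOn (fun t => D.U l R T R t) (Ici (T / 4)) ∧
    ContinuousOn (fun t => D.U₅ l R T R t) (Ici (T / 4)) ∧
    ContinuousOn (fun t => D.S T τ (pt T R t)) (Ici (T / 4)) ∧
    ContinuousOn (fun t => D.S T τ (pt T (-R) t)) (Ici (T / 4)) ∧
    ContinuousOn (fun t => D.HR R T τ t) (Ici (T / 4)) ∧
    ContinuousOn (fun t => D.HL R T τ t) (Ici (T / 4)) ∧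
    ContinuousOn (fun t => D.X y₁ y₂ R T τ t) (Ici (T / 4))

/-- (PR) the main term is bounded from below. -/
def T_PR : Prop :=
  ∀ D : Dat, D.Ok → ∃ c T₀ : ℝ, 0 < c ∧ ∀ T : ℝ, T₀ ≤ T → c ≤ D.c₀ T

/-- the sum of all error terms (`M = e^{R/10}`, `b = R^C`) -/
noncomputable def Dat.er (D : Dat) (C R p : ℝ) : ℝ :=
  let M := Real.exp (R / 10)
  let b := R ^ C
  let a₁ := R ^ C * Real.exp (-(1 / 2 - 2 * D.δ) * R)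
  let a₂ := R ^ C * Real.exp (-(D.r * (1 / 5 - 3 * D.δ)) * R)
  let a₃ := R ^ C * Real.exp (-(1 / 5 - 3 * D.δ) * R)
  (M * a₃ * a₁ + M * b * a₁ ^ (22 / 15 : ℝ) + b * M ^ (4 / 15 : ℝ) * (a₂ * a₁) ^ (11 / 15 : ℝ)) +
    (b ^ 2 * p ^ (19 / 30 : ℝ) + b * a₃ * p ^ (29 / 60 : ℝ) + a₂ * b * p ^ (7 / 30 : ℝ) +
      a₂ * a₃ * p ^ (1 / 12 : ℝ) + b ^ 2 * a₁ * p ^ (2 / 15 : ℝ))

/-- (NU) the choice of the parameters. -/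
def T_NU : Prop :=
  ∀ (D : Dat) (C η : ℝ), D.Ok → 1 ≤ C → 0 < η → ∃ R₁ : ℝ, 1 ≤ R₁ ∧ ∀ R : ℝ, R₁ ≤ R →
    ∃ κ : ℝ, 0 < κ ∧ ∀ p : ℝ, 0 ≤ p → p ≤ κ + R ^ C * Real.exp (-D.pe * R) →
      C * Real.exp ((D.y + D.δ) * R) * D.er C R p ≤ η

/-- (MN) the main inequality. -/
def T_MN : Prop :=
  ∀ D : Dat, D.Ok → ∃ C c R₀ : ℝ, 1 ≤ C ∧ 0 < c ∧ ∀ R : ℝ, R₀ ≤ R → ∃ T₀ : ℝ, ∀ T : ℝ,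
    T₀ ≤ T → ∀ (τ : ℝ) (Z : Finset ℂ), |τ| ≤ D.cτ * T →
    (∀ ρ : ℂ, 0 < ρ.re → ρ.re < 1 → T < ρ.im → ρ.im < 2 * T →
      analyticOrderAt (D.F₂ τ) ρ < analyticOrderAt D.F₁ ρ → ρ ∈ Z) →
    ∃ p : ℝ, 0 ≤ p ∧
      p ≤ Z.card * (4 * R ^ 3 / (T * Real.log T)) + R ^ C * Real.exp (-D.pe * R) ∧
      c ≤ Real.exp (-R) + T ^ (-c) + C * Real.exp ((D.y + D.δ) * R) * D.er C R p

/-- (FI) the final theorem. -/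
def T_FI : Prop :=
  ∀ (χ ψ : PrimChar) (r : ℝ), 1 < r → r < 11 / 5 → ∃ κ c₀ T₀ : ℝ, 0 < κ ∧ 0 < c₀ ∧
    ∀ T τ : ℝ, T₀ ≤ T → |τ| ≤ c₀ * T → ∃ Z : Finset ℂ,
      (∀ ρ ∈ Z, T < ρ.im ∧ ρ.im < 2 * T ∧ 0 < ρ.re ∧ ρ.re < 1 ∧ χ.L ρ = 0 ∧
        analyticOrderAt ψ.L (1 / 2 + r * (ρ - 1 / 2) + τ * I) < analyticOrderAt χ.L ρ) ∧
      κ * (T * Real.log T) ≤ ∑ ρ ∈ Z, (analyticOrderNatAt χ.L ρ : ℝ)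

/-- (CU) existence of the cutoff. -/
def T_CU : Prop := ∀ δ : ℝ, 0 < δ → δ < 1 → ∃ φ : ℝ → ℝ, Cut δ φ

end Pool.Agent.H74.DT
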